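import Mathlib
import Pool.Agent.E8helper19.SL.E

/-!
# Ball partial sums against cylindrical partial sums

Let `V` be a linear subspace of `ℝⁿ` and `h > 0`.  We compare the ball partial sums `S_R f` of a
function `f ∈ L²(ℝⁿ)` with the sums `T_m f` over the frequencies in the cylinder `|ξ_V| ≤ h m` which
lie in the parabolic neighbourhood `|ξ_⊥|² ≤ h (h + |ξ|)` of `V`.  The function
`sup_R |S_R f - T_⌊R / h⌋ f|` is in `L²` of every ball, with no loss for the frequencies in the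
parabolic neighbourhood and with the loss `log² (2 + |ξ_⊥| / h)` for the others.
-/

set_option autoImplicit false

open MeasureTheory Metric Filter Topology
open scoped ENNReal NNReal RealInnerProductSpace

namespace Pool.Agent.Results.MP_ee701d_an.CylinderComparisonH19

/-- Euclidean space -/
abbrev E (n : ℕ) := EuclideanSpace ℝ (Fin n)

/-- the ball partial sum `S_R f(x)` of the function `f` with Fourier transform `G` -/
noncomputable def S {n : ℕ} (G : E n → ℂ) (R : ℝ) (x : E n) : ℂ :=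
  ∫ ξ in closedBall (0 : E n) R, Complex.exp (2 * Real.pi * Complex.I * ((⟪x, ξ⟫ : ℝ) : ℂ)) * G ξ

/-- the cylindrical partial sum: only the frequencies `ξ` with `|ξ_V| ≤ h m` which lie in the
parabolic neighbourhood `|ξ_⊥|² ≤ h (h + |ξ|)` of the subspace `V` -/
noncomputable def T {n : ℕ} (V : Submodule ℝ (E n)) (h : ℝ) (G : E n → ℂ) (m : ℕ) (x : E n) : ℂ :=
  ∫ ξ in {ξ : E n | ‖V.starProjection ξ‖ ≤ h * m ∧ ‖Vᗮ.starProjection ξ‖ ^ 2 ≤ h * (h + ‖ξ‖)},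
    Complex.exp (2 * Real.pi * Complex.I * ((⟪x, ξ⟫ : ℝ) : ℂ)) * G ξ

open Classical in
/-- the weighted norm `∫ w |G|²`, where `w ξ = 1` if `|ξ_⊥|² ≤ h (h + |ξ|)` and
`w ξ = log² (2 + |ξ_⊥| / h)` otherwise -/
noncomputable def W {n : ℕ} (V : Submodule ℝ (E n)) (h : ℝ) (G : E n → ℂ) : ℝ≥0∞ :=
  ∫⁻ ξ, (if ‖Vᗮ.starProjection ξ‖ ^ 2 ≤ h * (h + ‖ξ‖) then 1
    else ENNReal.ofReal (Real.log (2 + ‖Vᗮ.starProjection ξ‖ / h) ^ 2)) * ‖G ξ‖ₑ ^ 2

theorem result {n : ℕ} (hn : 1 ≤ n) :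
    ∃ C : ℝ≥0, ∀ (V : Submodule ℝ (E n)) (h : ℝ), 0 < h → ∀ G : E n → ℂ, MemLp G 2 volume →
      ∃ N : E n → ℝ≥0∞, Measurable N ∧
        (∀ (x : E n) (R : ℝ), 0 ≤ R → ‖S G R x - T V h G ⌊R / h⌋₊ x‖ₑ ^ 2 ≤ N x) ∧
        ∀ (x₀ : E n) (ρ : ℝ), 0 < ρ →
          ∫⁻ x in closedBall x₀ ρ, N x ≤ C * ENNReal.ofReal (1 + h * ρ) * W V h G := by
  obtain ⟨m, rfl⟩ : ∃ m, n = m + 1 := ⟨n - 1, by omega⟩
  refine ⟨Real.toNNReal (1000 * (m + 1) * √(m + 1)), fun V h hh G hG => ?_⟩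
  have hC : ∀ t : ℝ, ENNReal.ofReal ((1000 * (m + 1) * √(m + 1)) * t) =
      ((Real.toNNReal (1000 * (m + 1) * √(m + 1)) : ℝ≥0) : ℝ≥0∞) * ENNReal.ofReal t := by
    intro t
    rw [ENNReal.ofReal_mul (by positivity)]
    rfl
  refine ⟨Pool.Agent.E8helper19.SL.NN (Pool.Agent.E8helper19.SL.spV V) h G,
    Pool.Agent.E8helper19.SL.NN_meas _ hh hG, ?_, ?_⟩
  · intro x R hR
    exact Pool.Agent.E8helper19.SL.NN_le (Pool.Agent.E8helper19.SL.spV V) hh hG x hR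
  · intro x₀ ρ hρ
    rw [← hC]
    exact Pool.Agent.E8helper19.SL.NN_int (Pool.Agent.E8helper19.SL.spV V) hh hG x₀ hρ

end Pool.Agent.Results.MP_ee701d_an.CylinderComparisonH19
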