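import Mathlib
import Pool.Agent.E8helper19.SL.E

/-!
# Equiconvergence of ball partial sums and cylindrical partial sums

Let `V` be a linear subspace of `ℝⁿ` and `h > 0`.  Let `f ∈ L²(ℝⁿ)` have a Fourier transform `G`
with `∫ w |G|² < ∞`, where `w = 1` in the parabolic neighbourhood `|ξ_⊥|² ≤ h (h + |ξ|)` of `V` and
`w = log² (2 + |ξ_⊥| / h)` outside.  Then `S_R f - T_⌊R / h⌋ f` converges almost everywhere, where
`T_m f` is the sum over the frequencies in the parabolic neighbourhood with `|ξ_V| ≤ h m`.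
-/

set_option autoImplicit false

open MeasureTheory Metric Filter Topology
open scoped ENNReal NNReal RealInnerProductSpace

namespace Pool.Agent.Results.MP_ee701d_an.EquiconvergenceH19

/-- Euclidean space -/
abbrev E (n : ℕ) := EuclideanSpace ℝ (Fin n)

/-- the ball partial sum `S_R f(x)` of the function `f` with Fourier transform `G` -/
noncomputable def S {n : ℕ} (G : E n → ℂ) (R : ℝ) (x : E n) : ℂ :=
  ∫ ξ in closedBall (0 : E n) R, Complex.exp (2 * Real.pi * Complex.I * ((⟪x, ξ⟫ : ℝ) : ℂ)) * G ξ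

/-- the cylindrical partial sum: only the frequencies `ξ` with `|ξ_V| ≤ h m` which lie in the
parabolic neighbourhood `|ξ_⊥|² ≤ h (h + |ξ|)` of the subspace `V` -/
noncomputable def T {n : ℕ} (V : Submodule ℝ (E n)) (h : ℝ) (G : E n → ℂ) (m : ℕ) (x : E n) : ℂ :=
  ∫ ξ in {ξ : E n | ‖V.starProjection ξ‖ ≤ h * m ∧ ‖Vᗮ.starProjection ξ‖ ^ 2 ≤ h * (h + ‖ξ‖)},
    Complex.exp (2 * Real.pi * Complex.I * ((⟪x, ξ⟫ : ℝ) : ℂ)) * G ξ

open Classical in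
/-- the weighted norm `∫ w |G|²`, where `w ξ = 1` if `|ξ_⊥|² ≤ h (h + |ξ|)` and
`w ξ = log² (2 + |ξ_⊥| / h)` otherwise -/
noncomputable def W {n : ℕ} (V : Submodule ℝ (E n)) (h : ℝ) (G : E n → ℂ) : ℝ≥0∞ :=
  ∫⁻ ξ, (if ‖Vᗮ.starProjection ξ‖ ^ 2 ≤ h * (h + ‖ξ‖) then 1
    else ENNReal.ofReal (Real.log (2 + ‖Vᗮ.starProjection ξ‖ / h) ^ 2)) * ‖G ξ‖ₑ ^ 2

theorem result {n : ℕ} (hn : 1 ≤ n) (V : Submodule ℝ (E n)) {h : ℝ} (hh : 0 < h) {G : E n → ℂ}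
    (hG : MemLp G 2 volume) (hW : W V h G ≠ ⊤) :
    ∀ᵐ x : E n, ∃ L : ℂ, Tendsto (fun R : ℝ => S G R x - T V h G ⌊R / h⌋₊ x) atTop (𝓝 L) := by
  obtain ⟨m, rfl⟩ : ∃ m, n = m + 1 := ⟨n - 1, by omega⟩
  exact Pool.Agent.E8helper19.SL.diff_conv (Pool.Agent.E8helper19.SL.spV V) hh hG hW

end Pool.Agent.Results.MP_ee701d_an.EquiconvergenceH19
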