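import Pool.Agent.E8helper16.XR.F

/-!
# Ball partial sums: the maximal estimate and convergence up to small sets of radii

Let `a > 2` and let `H` be the content on the line with the gauge `(log (2 + 1/t))^(-a)`.

1. The estimate of Q1 holds if at each dyadic scale the supremum over the radii is replaced by the
   integral (Choquet integral) with respect to the content `H`: the function
   `sup_k ∫₀^∞ H {ρ ∈ [1,2) : |S_{2^k ρ} f(x)|² > t} dt` is bounded in `L¹(ℝⁿ)` by `C ‖f‖₂²`.  If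
   `H` is replaced by the content which is `1` on all nonempty sets, this is the estimate of Q1.
2. Let `f` be the limit of `S_R f` in `L²`.  For almost every `x`, for each `ε > 0` the contents of
   the sets `{ρ ∈ [1,2) : |S_{2^k ρ} f(x) - f(x)| > ε}`, `k ≥ 0`, are summable, and
   `S_{2^k ρ} f(x) → f(x)` as `k → ∞` for all `ρ ∈ [1,2)` outside a set of Hausdorff dimension zero.
-/

set_option autoImplicit false

open MeasureTheory Set Filter Topology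
open scoped ENNReal NNReal RealInnerProductSpace

namespace Pool.Agent.Results.MP_ee701d_an.ExceptionalRadiiH16

/-- `ℝⁿ` -/
abbrev E (n : ℕ) := EuclideanSpace ℝ (Fin n)

/-- ball partial sum `S_R f(x)` of the function `f` with the Fourier transform `G` -/
noncomputable def S {n : ℕ} (G : E n → ℂ) (R : ℝ) (x : E n) : ℂ :=
  ∫ y in Metric.closedBall (0 : E n) R,
    Complex.exp (2 * Real.pi * Complex.I * ((⟪x, y⟫ : ℝ) : ℂ)) * G y

/-- gauge `(log (2 + 1/t))^(-a)` -/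
noncomputable def gauge (a t : ℝ) : ℝ≥0∞ := ENNReal.ofReal ((Real.log (2 + 1 / t)) ^ (-a))

/-- Hausdorff content of a set of real numbers: the infimum of the sums of the gauges of the lengths
over the countable covers by intervals -/
noncomputable def content (a : ℝ) (A : Set ℝ) : ℝ≥0∞ :=
  ⨅ (F : Set (ℝ × ℝ)) (_ : F.Countable) (_ : ∀ I ∈ F, I.1 < I.2)
    (_ : A ⊆ ⋃ I ∈ F, Icc I.1 I.2), ∑' I : F, gauge a ((I : ℝ × ℝ).2 - (I : ℝ × ℝ).1)

theorem result {n : ℕ} (hn : 1 ≤ n) {a : ℝ} (ha : 2 < a) :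
    (∃ C : ℝ≥0, ∀ G : E n → ℂ, MemLp G 2 volume → ∃ N : E n → ℝ≥0∞, Measurable N ∧
      (∀ (x : E n) (k : ℤ), ∫⁻ t in Ioi (0 : ℝ),
        content a {ρ | ρ ∈ Ico (1 : ℝ) 2 ∧ t < ‖S G (2 ^ k * ρ) x‖ ^ 2} ≤ N x) ∧
      ∫⁻ x, N x ≤ C * ∫⁻ y, ‖G y‖ₑ ^ 2) ∧
    ∀ G : E n → ℂ, MemLp G 2 volume → ∃ f : E n → ℂ, Measurable f ∧
      Tendsto (fun R : ℝ => ∫⁻ x, ‖S G R x - f x‖ₑ ^ 2) atTop (𝓝 0) ∧
      ∀ᵐ x : E n,
        (∀ ε : ℝ, 0 < ε →
          ∑' k : ℕ, content a {ρ | ρ ∈ Ico (1 : ℝ) 2 ∧ ε < ‖S G (2 ^ k * ρ) x - f x‖} < ⊤) ∧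
        dimH {ρ | ρ ∈ Ico (1 : ℝ) 2 ∧
          ¬ Tendsto (fun k : ℕ => S G (2 ^ k * ρ) x) atTop (𝓝 (f x))} = 0 := by
  obtain ⟨m, rfl⟩ : ∃ m, n = m + 1 := ⟨n - 1, by omega⟩
  refine ⟨⟨(Pool.Agent.E8helper16.XR.gauge a 1 * (4 * Pool.Agent.E8helper16.XR.C2 (m + 1)) +
    4 * Pool.Agent.E8helper16.XR.C1 a).toNNReal, fun G hG =>
      ⟨Pool.Agent.E8helper16.XR.NN a G, Pool.Agent.E8helper16.XR.NN_meas hG,
        fun x k => Pool.Agent.E8helper16.XR.NN_le ha hG k x, ?_⟩⟩, fun G hG => ?_⟩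
  · rw [ENNReal.coe_toNNReal]
    · exact Pool.Agent.E8helper16.XR.NN_int hG
    · refine (ENNReal.add_lt_top.2 ⟨?_, ?_⟩).ne
      · exact ENNReal.mul_lt_top ENNReal.ofReal_lt_top (ENNReal.mul_lt_top (by norm_num) ENNReal.coe_lt_top)
      · exact ENNReal.mul_lt_top (by norm_num) (Pool.Agent.E8helper16.XR.C1_lt ha)
  · obtain ⟨f, hf1, hf2, hf3⟩ := Pool.Agent.E8helper16.XR.exists_lim hG
    refine ⟨f, hf1, hf3, ?_⟩
    filter_upwards [Pool.Agent.E8helper16.XR.quasi_conv ha hG hf2] with x hx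
    refine ⟨hx, ?_⟩
    exact Pool.Agent.E8helper16.XR.dim_conv (a := a) (by linarith)
      (f := fun k ρ => Pool.Agent.Helper93.Sph.ps G (2 ^ k * ρ) x) hx

end Pool.Agent.Results.MP_ee701d_an.ExceptionalRadiiH16
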