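import Mathlib
import Pool.Agent.E8helper19.SL.I

/-!
# Q1 in dimension `k` as a local estimate in `ℝⁿ` with a loss only transversally to a `k`-plane

Let `V` be a `k`-dimensional subspace of `ℝⁿ`, `k ≥ 1`.  The following are equivalent: the estimate
of Q1 in dimension `k` (which is Carleson's theorem for `k = 1`); the local `L²` estimate for the
maximal ball partial sum in `ℝⁿ`, on balls of radius `1 / h`, with no loss for the frequencies in
the parabolic neighbourhood `|ξ_⊥|² ≤ h (h + |ξ|)` of `V` and with the loss `log² (2 + |ξ_⊥| / h)`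
for all others; the same local estimate without loss for the functions with frequencies in the tube
`|ξ_⊥| ≤ h` around `V`.
-/

set_option autoImplicit false

open MeasureTheory Metric Filter Topology
open scoped ENNReal NNReal RealInnerProductSpace

namespace Pool.Agent.Results.MP_ee701d_an.SubspaceEquivalenceH19

/-- Euclidean space -/
abbrev E (n : ℕ) := EuclideanSpace ℝ (Fin n)

/-- the ball partial sum `S_R f(x)` of the function `f` with Fourier transform `G` -/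
noncomputable def S {n : ℕ} (G : E n → ℂ) (R : ℝ) (x : E n) : ℂ :=
  ∫ ξ in closedBall (0 : E n) R, Complex.exp (2 * Real.pi * Complex.I * ((⟪x, ξ⟫ : ℝ) : ℂ)) * G ξ

/-- the square `S^* f(x)²` of the maximal ball partial sum of the function `f` with Fourier
transform `G` -/
noncomputable def maxSq {n : ℕ} (G : E n → ℂ) (x : E n) : ℝ≥0∞ :=
  ⨆ (R : ℝ) (_ : 0 < R), ‖S G R x‖ₑ ^ 2

/-- the Fourier transform -/
noncomputable def hat {n : ℕ} (f : E n → ℂ) (ξ : E n) : ℂ :=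
  ∫ x, Complex.exp (-(2 * Real.pi * Complex.I * ((⟪x, ξ⟫ : ℝ) : ℂ))) * f x

/-- the estimate of Q1 in dimension `k` -/
def Q1 (k : ℕ) : Prop :=
  ∃ A : ℝ≥0, ∀ f : SchwartzMap (E k) ℂ, ∫⁻ x, maxSq (hat f) x ≤ A * ∫⁻ x, ‖f x‖ₑ ^ 2

open Classical in
/-- the weighted norm `∫ w |G|²`, where `w ξ = 1` if `|ξ_⊥|² ≤ h (h + |ξ|)` and
`w ξ = log² (2 + |ξ_⊥| / h)` otherwise; `ξ_⊥` is the component of `ξ` orthogonal to `V` -/
noncomputable def W {n : ℕ} (V : Submodule ℝ (E n)) (h : ℝ) (G : E n → ℂ) : ℝ≥0∞ :=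
  ∫⁻ ξ, (if ‖Vᗮ.starProjection ξ‖ ^ 2 ≤ h * (h + ‖ξ‖) then 1
    else ENNReal.ofReal (Real.log (2 + ‖Vᗮ.starProjection ξ‖ / h) ^ 2)) * ‖G ξ‖ₑ ^ 2

lemma maxSq_eq {m : ℕ} (G : E (m + 1) → ℂ) (x : E (m + 1)) :
    maxSq G x = ⨆ R : ℝ, ‖Pool.Agent.Helper93.Sph.ps G R x‖ₑ ^ 2 := by
  refine le_antisymm (iSup_mono fun R => iSup_le fun _ => le_rfl) (iSup_le fun R => ?_)
  rcases lt_trichotomy R 0 with hR | hR | hR
  · rw [Pool.Agent.Helper93.Sph.ps_neg _ hR]; simp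
  · rw [hR, Pool.Agent.Helper93.Sph.ps_zero]; simp
  · exact le_iSup₂_of_le (f := fun (R : ℝ) (_ : 0 < R) => ‖S G R x‖ₑ ^ 2) R hR le_rfl

theorem result {k n : ℕ} (hk : 1 ≤ k) (V : Submodule ℝ (E n)) (hV : Module.finrank ℝ V = k) :
    [Q1 k,
     ∃ A : ℝ≥0, ∀ h : ℝ, 0 < h → ∀ G : E n → ℂ, MemLp G 2 volume → ∀ x₀ : E n,
        ∫⁻ x in closedBall x₀ (1 / h), maxSq G x ≤ A * W V h G,
     ∃ A : ℝ≥0, ∀ h : ℝ, 0 < h → ∀ G : E n → ℂ, MemLp G 2 volume →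
        (∀ ξ, h < ‖Vᗮ.starProjection ξ‖ → G ξ = 0) → ∀ x₀ : E n,
        ∫⁻ x in closedBall x₀ (1 / h), maxSq G x ≤ A * ∫⁻ ξ, ‖G ξ‖ₑ ^ 2].TFAE := by
  obtain ⟨p, rfl⟩ : ∃ p, k = p + 1 := ⟨k - 1, by omega⟩
  have hn : p + 1 ≤ n := by
    have h1 := Submodule.finrank_le V
    rw [hV, finrank_euclideanSpace, Fintype.card_fin] at h1
    exact h1
  obtain ⟨m, rfl⟩ : ∃ m, n = m + 1 := ⟨n - 1, by omega⟩
  set b : OrthonormalBasis (Fin (p + 1)) ℝ V :=
    (stdOrthonormalBasis ℝ V).reindex (finCongr hV) with hb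
  have hQ : ∀ A : ℝ≥0, Pool.Agent.E8helper19.SL.QEs (p + 1) A ↔
      ∀ f : SchwartzMap (E (p + 1)) ℂ, ∫⁻ x, maxSq (hat f) x ≤ A * ∫⁻ x, ‖f x‖ₑ ^ 2 := by
    intro A
    refine forall_congr' fun f => ?_
    simp_rw [maxSq_eq]
    exact Iff.rfl
  tfae_have 1 → 2 := by
    rintro ⟨A, hA⟩
    have hA' := Pool.Agent.E8helper19.SL.QE_MaxEst b
      (Pool.Agent.E8helper19.SL.QEs_QE ((hQ A).2 hA))
    set C : ℝ≥0∞ := 2 * (A + ENNReal.ofReal ((1000 * (m + 1) * √(m + 1)) * 2)) with hC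
    have hCt : C ≠ ⊤ :=
      ENNReal.mul_ne_top (by simp) (ENNReal.add_ne_top.2 ⟨by simp, ENNReal.ofReal_ne_top⟩)
    refine ⟨C.toNNReal, fun h hh G hG x₀ => ?_⟩
    rw [ENNReal.coe_toNNReal hCt]
    simp_rw [maxSq_eq]
    refine (Pool.Agent.E8helper19.SL.max_est V hA' hh hG x₀
      (show 0 < 1 / h by positivity)).trans (le_of_eq ?_)
    have h1 : 1 + h * (1 / h) = 2 := by field_simp; norm_num
    rw [h1]
    rfl
  tfae_have 2 → 3 := by
    rintro ⟨A, hA⟩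
    refine ⟨A, fun h hh G hG hsupp x₀ => (hA h hh G hG x₀).trans (mul_le_mul_right ?_ _)⟩
    rw [W]
    refine lintegral_mono fun ξ => ?_
    by_cases h1 : h < ‖Vᗮ.starProjection ξ‖
    · rw [hsupp ξ h1]; simp
    · have h2 : ‖Vᗮ.starProjection ξ‖ ^ 2 ≤ h * (h + ‖ξ‖) := by
        push Not at h1
        have h3 : ‖Vᗮ.starProjection ξ‖ ^ 2 ≤ h ^ 2 := pow_le_pow_left₀ (norm_nonneg _) h1 2
        have h4 : 0 ≤ h * ‖ξ‖ := by positivity
        nlinarith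
      simp only [if_pos h2, one_mul]
      exact le_rfl
  tfae_have 3 → 1 := by
    rintro ⟨A, hA⟩
    have hT : Pool.Agent.E8helper19.SL.Tube V A := by
      intro h hh G hG hsupp x₀
      have := hA h hh G hG hsupp x₀
      simp_rw [maxSq_eq] at this
      exact this
    obtain ⟨A', hA'⟩ := Pool.Agent.E8helper19.SL.tube_QE b hT
    exact ⟨A', (hQ A').1 (Pool.Agent.E8helper19.SL.QE_QEs hA')⟩
  tfae_finish

end Pool.Agent.Results.MP_ee701d_an.SubspaceEquivalenceH19
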